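import Pool.Agent.Helper48.HH.Types

/-! Project HH (joins), block TRK: the generator of a representation is multiplied by an element of
`R` and replaced by a power. -/

set_option autoImplicit false

namespace Pool.Agent.Helper43.HH

open IntermediateField MvPolynomial Pool.Agent.Helper75.QC Pool.Agent.Helper75.WC
  Pool.Agent.Helper48.HH

/-- `w' = w ^ t u`, `u ∈ R` -/
def Rel (R : Type) {M : Type} [Field R] [Field M] [Algebra R M] (t : ℕ) (w w' : M) : Prop :=
  ∃ u : R, u ≠ 0 ∧ w' = w ^ t * algebraMap R M u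

theorem Rel.refl (R : Type) {M : Type} [Field R] [Field M] [Algebra R M] (w : M) :
    Rel R 1 w w := ⟨1, one_ne_zero, by simp⟩

theorem Rel.trans {R M : Type} [Field R] [Field M] [Algebra R M] {t : ℕ} {w w' w'' : M}
    (h : Rel R 1 w w') (h' : Rel R t w' w'') : Rel R t w w'' := by
  obtain ⟨u, hu, rfl⟩ := h
  obtain ⟨v, hv, rfl⟩ := h'
  refine ⟨u ^ t * v, mul_ne_zero (pow_ne_zero _ hu) hv, ?_⟩
  rw [map_mul, map_pow, pow_one, mul_pow]
  ring

theorem Rel.act {Ω R M : Type} [Field Ω] [Field R] [Field M] [Algebra Ω M] [Algebra R M] {t : ℕ}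
    {w w' : M} (h : Rel R t w w') {σ : M →ₐ[R] M} {ζ : Ω} (hσ : σ w = algebraMap Ω M ζ * w) :
    σ w' = algebraMap Ω M (ζ ^ t) * w' := by
  obtain ⟨u, -, rfl⟩ := h
  rw [map_mul, map_pow, hσ, AlgHom.commutes, mul_pow, map_pow]
  ring

/-- Twist of the generator. -/
theorem twistR {R M : Type} [Field R] [Field M] [Algebra R M] {w : M} {n t : ℕ} (hn : 0 < n)
    (hw : adjoin R {w} = ⊤) (ht : t.Coprime n) {u : R} (hu : u ≠ 0)
    (hwu : w ^ n = algebraMap R M u) {a b z : R} (hz : z ≠ 0) (h : u ^ t * a = b * z ^ n) :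
    ∃ w' : M, adjoin R {w'} = ⊤ ∧ w' ^ n * algebraMap R M a = algebraMap R M b ∧ Rel R t w w' := by
  have hzM : algebraMap R M z ≠ 0 := by simpa using hz
  have huM : algebraMap R M u ≠ 0 := by simpa using hu
  have hw0 : w ≠ 0 := by
    rintro rfl
    rw [zero_pow hn.ne'] at hwu
    exact huM hwu.symm
  refine ⟨w ^ t / algebraMap R M z, ?_, ?_, z⁻¹, inv_ne_zero hz, ?_⟩
  · rw [eq_top_iff, ← hw, adjoin_le_iff]
    rintro _ rfl
    set F := adjoin R {_ ^ t / algebraMap R M z} with hF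
    rename_i w
    have h1 : w ^ t / algebraMap R M z ∈ F := subset_adjoin _ _ rfl
    have h2 : w ^ t ∈ F := by
      have h3 := mul_mem h1 (F.algebraMap_mem z)
      rwa [div_mul_cancel₀ _ hzM] at h3
    have h4 : w ^ n ∈ F := by
      rw [hwu]
      exact F.algebraMap_mem u
    have h5 : (w : M) = (w ^ t) ^ (Int.gcdA t n) * (w ^ n) ^ (Int.gcdB t n) := by
      have h6 : (1 : ℤ) = t * Int.gcdA t n + n * Int.gcdB t n := by
        have := Int.gcd_eq_gcd_ab (t : ℤ) n
        rw [Int.gcd_natCast_natCast, ht] at this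
        exact_mod_cast this
      rw [← zpow_natCast w t, ← zpow_natCast w n, ← zpow_mul, ← zpow_mul, ← zpow_add₀ hw0, ← h6,
        zpow_one]
    rw [SetLike.mem_coe, h5]
    exact mul_mem (zpow_mem h2 _) (zpow_mem h4 _)
  · rw [div_pow, ← pow_mul, mul_comm t n, pow_mul, hwu, ← map_pow, ← map_pow, div_mul_eq_mul_div,
      ← map_mul, h, map_mul, mul_div_assoc, div_self, mul_one]
    rw [map_pow]
    exact pow_ne_zero _ hzM
  · rw [map_inv₀, div_eq_mul_inv]

/-- **Twist of a representation.** -/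
theorem twist43 {Ω R M : Type} [Field Ω] [IsAlgClosed Ω] [Field R] [Field M] [Algebra Ω R]
    [Algebra Ω M] [Algebra R M] {n : ℕ} {D : ℕ → ℕ} (H : Rep Ω R M n D) (hn : 0 < n) {t : ℕ}
    (ht : t.Coprime n) (a b : ℕ → ℕ)
    (h : ∀ e < n, D e = 0 ∨ (t * e + a e) % n = b e % n) :
    ∃ w' : M, adjoin R {w'} = ⊤ ∧
      w' ^ n * algebraMap R M (MvPolynomial.aeval ![H.x, H.y] (prodP n H.P a)) =
        algebraMap R M (MvPolynomial.aeval ![H.x, H.y] (prodP n H.P b)) ∧ Rel R t H.w w' := by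
  classical
  have h1 : ∀ e, ∃ z : R, z ≠ 0 ∧ (e < n → MvPolynomial.aeval ![H.x, H.y] (H.P e) ^ (t * e) *
      MvPolynomial.aeval ![H.x, H.y] (H.P e) ^ a e =
        MvPolynomial.aeval ![H.x, H.y] (H.P e) ^ b e * z ^ n) := by
    intro e
    by_cases he : e < n
    · obtain ⟨z, hz, hz'⟩ := exps (Ω := Ω) hn (H.ne e) (d := D e)
        (fun h0 => aeval_const H.x H.y ((H.deg e).trans h0.le)) (t * e) (a e) (b e) (h e he)
      exact ⟨z, hz, fun _ => hz'⟩
    · exact ⟨1, one_ne_zero, fun h => absurd h he⟩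
  choose z hz hz' using h1
  refine twistR (z := ∏ e ∈ Finset.range n, z e) hn H.top ht (u := _) ?_ H.eq
    (Finset.prod_ne_zero_iff.2 fun e _ => hz e) ?_
  · rw [Finset.prod_ne_zero_iff]
    exact fun e _ => pow_ne_zero _ (H.ne e)
  · unfold prodP
    rw [map_prod, map_prod, ← Finset.prod_pow, ← Finset.prod_pow, ← Finset.prod_mul_distrib,
      ← Finset.prod_mul_distrib]
    refine Finset.prod_congr rfl fun e he => ?_
    rw [map_pow, map_pow, ← pow_mul, mul_comm e t]
    exact hz' e (Finset.mem_range.1 he)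

/-- the line at infinity -/
theorem move43 {Ω R M : Type} [Field Ω] [Field R] [Field M] [Algebra Ω R]
    [Algebra Ω M] [Algebra R M] {n : ℕ} {D : ℕ → ℕ} (H : Rep Ω R M n D) {e0 : ℕ}
    (he : e0 ∈ Finset.range n) (hD : D e0 = 1) (hsum : n ∣ ∑ e ∈ Finset.range n, e * D e) :
    ∃ H' : Rep Ω R M n (Function.update D e0 0), Rel R 1 H.w H'.w := by
  classical
  by_cases h1 : (H.P e0).totalDegree ≤ 0
  · refine ⟨⟨H.x, H.y, H.w, H.P, H.gen, H.top, fun e => ?_, H.ne, H.eq⟩, Rel.refl R _⟩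
    by_cases h2 : e = e0
    · subst h2
      simpa using h1
    · rw [Function.update_of_ne h2]
      exact H.deg e
  obtain ⟨x', y', A, B, hgen, hy0, hl, hA, hB, hx, hy⟩ :=
    new_line H.gen ((H.deg e0).trans hD.le) h1 (H.ne e0)
  choose Q hQ1 hQ2 using fun e => moved hA hB hx hy (H.P e) (H.deg e)
  obtain ⟨N, hN⟩ := hsum
  refine ⟨⟨x', y', H.w * algebraMap R M (y' ^ N), Function.update Q e0 1, hgen, ?_, fun e => ?_,
    fun e => ?_, ?_⟩, y' ^ N, pow_ne_zero _ hy0, by rw [pow_one]⟩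
  · have hz : algebraMap R M (y' ^ N) ≠ 0 := by
      rw [map_pow]
      exact pow_ne_zero _ (by simpa using hy0)
    rw [eq_top_iff, ← H.top, adjoin_le_iff]
    intro w hw
    rw [Set.mem_singleton_iff] at hw
    subst hw
    have h2 : H.w * algebraMap R M (y' ^ N) ∈ adjoin R {H.w * algebraMap R M (y' ^ N)} :=
      subset_adjoin _ _ rfl
    have h3 := div_mem h2 ((adjoin R {H.w * algebraMap R M (y' ^ N)}).algebraMap_mem (y' ^ N))
    rwa [mul_div_cancel_right₀ _ hz] at h3
  · by_cases h2 : e = e0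
    · subst h2
      simp
    · rw [Function.update_of_ne h2, Function.update_of_ne h2]
      exact hQ1 e
  · by_cases h2 : e = e0
    · subst h2
      simp
    · rw [Function.update_of_ne h2, hQ2]
      exact mul_ne_zero (H.ne e) (pow_ne_zero _ hy0)
  · rw [mul_pow, H.eq, ← map_pow, ← map_mul]
    congr 1
    have h3 : (y' ^ N) ^ n = ∏ e ∈ Finset.range n, (y' ^ D e) ^ e := by
      rw [← pow_mul, mul_comm N n, ← hN, ← Finset.prod_pow_eq_pow_sum]
      refine Finset.prod_congr rfl fun e _ => ?_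
      rw [← pow_mul, mul_comm]
    rw [h3, ← Finset.prod_mul_distrib]
    refine Finset.prod_congr rfl fun e _ => ?_
    rw [← mul_pow]
    by_cases h2 : e = e0
    · subst h2
      rw [Function.update_self, map_one, hD, pow_one, hl]
    · rw [Function.update_of_ne h2, hQ2]

/-- **The component `e1`, a line, is made the line `x = 0`.** -/
theorem axis43 {Ω R M : Type} [Field Ω] [Field R] [Field M] [Algebra Ω R]
    [Algebra Ω M] [Algebra R M] {n : ℕ} {D : ℕ → ℕ} (H : Rep Ω R M n D) {e1 : ℕ}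
    (hD : D e1 ≤ 1) :
    ∃ H' : Rep Ω R M n D, (H'.P e1 = X 0 ∨ (H'.P e1).totalDegree ≤ 0) ∧ H'.w = H.w := by
  classical
  by_cases h1 : (H.P e1).totalDegree ≤ 0
  · exact ⟨H, Or.inr h1, rfl⟩
  obtain ⟨x', y', A, B, hgen, hl, hA, hB, hx, hy⟩ :=
    new_axis H.gen ((H.deg e1).trans hD) h1
  choose Q hQ1 hQ2 using fun e => moved_aff hA hB hx hy (H.P e) (H.deg e)
  have h2 : ∀ e, aeval ![x', y'] (Function.update Q e1 (X 0) e) = aeval ![H.x, H.y] (H.P e) := by
    intro e
    by_cases h2 : e = e1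
    · subst h2
      rw [Function.update_self, aeval_X, hl]
      rfl
    · rw [Function.update_of_ne h2, hQ2]
  refine ⟨⟨x', y', H.w, Function.update Q e1 (X 0), hgen, H.top, fun e => ?_, fun e => ?_, ?_⟩,
    Or.inl (Function.update_self _ _ _), rfl⟩
  · by_cases h3 : e = e1
    · subst h3
      rw [Function.update_self, totalDegree_X]
      by_contra h4
      apply h1
      have := H.deg e
      omega
    · rw [Function.update_of_ne h3]
      exact hQ1 e
  · rw [h2]
    exact H.ne e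
  · simp only [h2]
    exact H.eq

end Pool.Agent.Helper43.HH
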