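import Pool.Agent.Helper43.HH.Sound
import Pool.Agent.Helper75.WC.CurveEight

/-! Project HH (joins), block TRK3: the branch curves for which there is no condition on the
exponent `n`. -/

set_option autoImplicit false

namespace Pool.Agent.Helper43.HH

open IntermediateField MvPolynomial Pool.Agent.Helper75.QC Pool.Agent.Helper75.WC
  Pool.Agent.Helper48.HH

/-- the conclusion of the block TRK3 for the degrees `D` -/
def TrackD (n : ℕ) (D : ℕ → ℕ) : Prop :=
  ∃ α β t : ℕ, t.Coprime n ∧ (α.gcd β).Coprime n ∧ ¬ n ∣ α ∧ ¬ n ∣ β ∧ ¬ n ∣ α + β ∧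
    ∀ {Ω R M : Type} [Field Ω] [IsAlgClosed Ω] [Field R] [Field M] [Algebra Ω R] [Algebra Ω M]
      [Algebra R M] [IsScalarTower Ω R M] [FiniteDimensional R M] [IsGalois R M],
      Module.finrank R M = n → ∀ (H : Rep Ω R M n D) (σ : M →ₐ[R] M) (ζ : Ω),
        σ H.w = algebraMap Ω M ζ * H.w →
        Uniruled Ω M 2 ∨ RowP Ω M (σ.restrictScalars Ω) n α β (ζ ^ t)

/-- a common divisor of the exponents -/
theorem trackD_common {n : ℕ} {D : ℕ → ℕ} (hn : 2 < n) {g : ℕ} (hg : 1 < g) (hgn : g ∣ n)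
    (h0 : ∀ e < n, D e = 0 ∨ g ∣ e) : TrackD n D := by
  have n1 : ¬ n ∣ 1 := fun h => by
    have := Nat.le_of_dvd one_pos h
    omega
  have n2 : ¬ n ∣ 1 + 1 := fun h => by
    have := Nat.le_of_dvd (by norm_num) h
    omega
  refine ⟨1, 1, 1, Nat.coprime_one_left n, by simp, n1, n1, n2,
    fun {Ω R M} _ _ _ _ _ _ _ _ _ _ hfin H σ ζ hσ => ?_⟩
  exact (H.no_common (by omega) hfin hg hgn h0).elim

/-- an exponent which is not prime to `n` -/
theorem trackD_gcd {n : ℕ} {D : ℕ → ℕ} (hn : 2 < n) {u : ℕ} (hu : ¬ u.Coprime n)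
    (h0 : ∀ e < n, D e = 0 ∨ u.gcd n ∣ e) : TrackD n D := by
  refine trackD_common hn (g := u.gcd n) ?_ (Nat.gcd_dvd_right _ _) h0
  have h1 : 0 < u.gcd n := Nat.gcd_pos_of_pos_right _ (by omega)
  have h2 : u.gcd n ≠ 1 := hu
  omega

theorem trackD_move {n : ℕ} {D : ℕ → ℕ} {e0 : ℕ} (he : e0 < n) (hD : D e0 = 1)
    (hsum : n ∣ ∑ e ∈ Finset.range n, e * D e) (h : TrackD n (Function.update D e0 0)) :
    TrackD n D := by
  obtain ⟨α, β, t, h1, h2, h3, h4, h5, h6⟩ := h
  refine ⟨α, β, t, h1, h2, h3, h4, h5, fun {Ω R M} _ _ _ _ _ _ _ _ _ _ hfin H σ ζ hσ => ?_⟩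
  obtain ⟨H', h7⟩ := move43 H (Finset.mem_range.2 he) hD hsum
  refine h6 hfin H' σ ζ ?_
  have h8 := h7.act hσ
  rwa [pow_one] at h8

/-- one component of degree at most four -/
theorem trackD_four {n : ℕ} (hn : 2 < n) {D : ℕ → ℕ} {k1 : ℕ} (hk1 : k1 < n)
    (h0 : ∀ e < n, e ≠ k1 → D e = 0) (h1 : D k1 ≤ 4) : TrackD n D := by
  by_cases hu : k1.Coprime n
  swap
  · refine trackD_gcd hn hu fun e he => ?_
    by_cases h : e = k1
    · right
      rw [h]
      exact Nat.gcd_dvd_left _ _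
    · exact Or.inl (h0 e he h)
  have n1 : ¬ n ∣ 1 := fun h => by
    have := Nat.le_of_dvd one_pos h
    omega
  have n2 : ¬ n ∣ 1 + 1 := fun h => by
    have := Nat.le_of_dvd (by norm_num) h
    omega
  obtain ⟨t, ht, ht'⟩ := exists_inv (by omega : 0 < n) hu
  refine ⟨1, 1, t, ht, by simp, n1, n1, n2,
    fun {Ω R M} _ _ _ _ _ _ _ _ _ _ hfin H σ ζ hσ => Or.inr ?_⟩
  obtain ⟨w', e1, e2⟩ := rep_rowA H hfin (by omega) (a := 1) (c := 0) (i := n) (j := n) ht
    (fun _ => 0) (fun e => if e = k1 then 1 else 0) (fun e he => by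
      by_cases h3 : e = k1
      · subst h3
        right
        simpa using ht'
      · exact Or.inl (h0 e he h3)) (by omega) (Or.inl (by omega)) (by simp) (by
      simp only [ite_mul, one_mul, zero_mul]
      rw [Finset.sum_ite_eq', if_pos (Finset.mem_range.2 hk1)]
      omega)
  exact e2 σ _ (e1.act hσ)

/-- one component of degree five -/
theorem trackD_five {n : ℕ} (hn : 2 < n) {D : ℕ → ℕ} {k1 : ℕ} (hk1 : k1 < n)
    (h0 : ∀ e < n, e ≠ k1 → D e = 0) (h1 : D k1 = 5)
    (hsum : n ∣ ∑ e ∈ Finset.range n, e * D e) : TrackD n D := by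
  by_cases hu : k1.Coprime n
  swap
  · refine trackD_gcd hn hu fun e he => ?_
    by_cases h : e = k1
    · right
      rw [h]
      exact Nat.gcd_dvd_left _ _
    · exact Or.inl (h0 e he h)
  have n1 : ¬ n ∣ 1 := fun h => by
    have := Nat.le_of_dvd one_pos h
    omega
  have n2 : ¬ n ∣ 1 + 1 := fun h => by
    have := Nat.le_of_dvd (by norm_num) h
    omega
  obtain ⟨t, ht, ht'⟩ := exists_inv (by omega : 0 < n) hu
  rw [Finset.sum_eq_single_of_mem k1 (Finset.mem_range.2 hk1) (fun e he h => by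
    rw [h0 e (Finset.mem_range.1 he) h, mul_zero]), h1] at hsum
  have h2 : n ∣ 5 := (Nat.Coprime.dvd_of_dvd_mul_left hu.symm hsum)
  have h3 : n = 5 := by
    rcases (Nat.dvd_prime (by norm_num : Nat.Prime 5)).1 h2 with h3 | h3
    · omega
    · exact h3
  subst h3
  refine ⟨1, 1, t, ht, by simp, n1, n1, n2,
    fun {Ω R M} _ _ _ _ _ _ _ _ _ _ hfin H σ ζ hσ => Or.inr ?_⟩
  obtain ⟨w', e1, e2⟩ := rep_rowA H hfin (by omega) (a := 1) (c := 1) (i := 3) (j := 1) ht
    (fun _ => 0) (fun e => if e = k1 then 1 else 0) (fun e he => by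
      by_cases h3 : e = k1
      · subst h3
        right
        simpa using ht'
      · exact Or.inl (h0 e he h3)) (by omega) (Or.inl (by omega)) (by simp) (by
      simp only [ite_mul, one_mul, zero_mul]
      rw [Finset.sum_ite_eq', if_pos (Finset.mem_range.2 hk1)]
      omega)
  exact e2 σ _ (e1.act hσ)

/-- a cubic and a conic -/
theorem trackD_threeTwo {n : ℕ} (hn : 2 < n) {D : ℕ → ℕ} {k1 k2 : ℕ}
    (h12 : k1 ≠ k2) (hk1 : k1 < n) (hk2 : k2 < n) (hD0 : D 0 = 0)
    (h0 : ∀ e < n, e ≠ k1 → e ≠ k2 → D e = 0) (h1 : D k1 = 3) (h2 : D k2 = 2)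
    (hsum : n ∣ ∑ e ∈ Finset.range n, e * D e) : TrackD n D := by
  classical
  have h5 : ∑ e ∈ Finset.range n, e * D e = 3 * k1 + 2 * k2 := by
    rw [Finset.sum_eq_add_of_mem k1 k2 (Finset.mem_range.2 hk1) (Finset.mem_range.2 hk2) h12
      (fun e he h => by rw [h0 e (Finset.mem_range.1 he) h.1 h.2, mul_zero]), h1, h2]
    ring
  rw [h5] at hsum
  obtain ⟨u, hu⟩ : ∃ u, u = 2 * n - (k1 + k2) := ⟨_, rfl⟩
  have hu' : u + (k1 + k2) = 2 * n := by omega
  -- `k1 = 2 u`, `k2 = - 3 u` modulo `n`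
  have hz1 : (n : ℤ) ∣ (k1 : ℤ) - 2 * u := by
    obtain ⟨c, hc⟩ := hsum
    refine ⟨c - 4, ?_⟩
    have e1 : (3 : ℤ) * k1 + 2 * k2 = n * c := by exact_mod_cast hc
    have e2 : (u : ℤ) + (k1 + k2) = 2 * n := by exact_mod_cast hu'
    linear_combination e1 - 2 * e2
  have hz2 : (n : ℤ) ∣ (k2 : ℤ) + 3 * u := by
    obtain ⟨c, hc⟩ := hsum
    refine ⟨6 - c, ?_⟩
    have e1 : (3 : ℤ) * k1 + 2 * k2 = n * c := by exact_mod_cast hc
    have e2 : (u : ℤ) + (k1 + k2) = 2 * n := by exact_mod_cast hu'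
    linear_combination 3 * e2 - e1
  by_cases hcop : u.Coprime n
  swap
  · refine trackD_gcd hn hcop fun e he => ?_
    have hgn : ((u.gcd n : ℕ) : ℤ) ∣ (n : ℤ) := by exact_mod_cast Nat.gcd_dvd_right u n
    have hgu : ((u.gcd n : ℕ) : ℤ) ∣ (u : ℤ) := by exact_mod_cast Nat.gcd_dvd_left u n
    by_cases a1 : e = k1
    · right
      subst a1
      have h6 : ((u.gcd n : ℕ) : ℤ) ∣ (e : ℤ) := by
        have h7 := (hgn.trans hz1).add (hgu.mul_left 2)
        rwa [sub_add_cancel] at h7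
      exact_mod_cast h6
    by_cases a2 : e = k2
    · right
      subst a2
      have h6 : ((u.gcd n : ℕ) : ℤ) ∣ (e : ℤ) := by
        have h7 := (hgn.trans hz2).sub (hgu.mul_left 3)
        rwa [add_sub_cancel_right] at h7
      exact_mod_cast h6
    · exact Or.inl (h0 e he a1 a2)
  have hn3 : n ≠ 3 := by
    rintro rfl
    have h6 : (3 : ℤ) ∣ (k2 : ℤ) := by
      have h7 := hz2.sub (dvd_mul_right (3 : ℤ) u)
      rwa [add_sub_cancel_right] at h7
    have h7 : 3 ∣ k2 := by exact_mod_cast h6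
    have h8 : k2 = 0 := by omega
    rw [h8, hD0] at h2
    omega
  have n1 : ¬ n ∣ 1 := fun h => by
    have := Nat.le_of_dvd one_pos h
    omega
  have n2 : ¬ n ∣ 2 := fun h => by
    have := Nat.le_of_dvd (by norm_num) h
    omega
  have n3 : ¬ n ∣ 2 + 1 := fun h => by
    have := Nat.le_of_dvd (by norm_num) h
    omega
  obtain ⟨t, ht, ht'⟩ := exists_inv (by omega : 0 < n) hcop
  have hzt : (n : ℤ) ∣ (t : ℤ) * u - 1 := by
    have h6 : ((t * u : ℕ) : ℤ) ≡ ((1 : ℕ) : ℤ) [ZMOD n] := (Int.natCast_modEq_iff).2 ht'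
    have h7 := h6.symm.dvd
    push_cast at h7
    exact h7
  have key : ∀ a b : ℕ, (n : ℤ) ∣ (b : ℤ) - a → a % n = b % n := fun a b h =>
    (Nat.modEq_iff_dvd.2 h)
  have m1 : (t * k1) % n = 2 % n := by
    refine key _ _ ?_
    have h6 : ((2 : ℕ) : ℤ) - ((t * k1 : ℕ) : ℤ) = -(t * ((k1 : ℤ) - 2 * u)) - 2 * (t * u - 1) := by
      push_cast
      ring
    rw [h6]
    exact ((hz1.mul_left _).neg_right).sub (hzt.mul_left 2)
  have m2 : (t * k2 + 3) % n = 0 % n := by
    refine key _ _ ?_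
    have h6 : ((0 : ℕ) : ℤ) - ((t * k2 + 3 : ℕ) : ℤ) =
        -(t * ((k2 : ℤ) + 3 * u)) + 3 * (t * u - 1) := by
      push_cast
      ring
    rw [h6]
    exact ((hz2.mul_left _).neg_right).add (hzt.mul_left 3)
  refine ⟨2, 1, t, ht, by simp, n2, n1, n3,
    fun {Ω R M} _ _ _ _ _ _ _ _ _ _ hfin H σ ζ hσ => Or.inr ?_⟩
  obtain ⟨w', e1, e2⟩ := rep_rowT H hfin (by omega) (k := 2) (l := 1) (a := 1) (c := 1) ht
    (by norm_num) (by norm_num) (by norm_num)
    (fun e => if e = k1 then 1 else 0) (fun e => if e = k2 then 1 else 0) (fun _ => 0)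
    (fun e he => by
      by_cases a1 : e = k1
      · subst a1
        right
        simpa [h12] using m1
      by_cases a2 : e = k2
      · subst a2
        right
        simpa [a1] using m2
      · exact Or.inl (h0 e he a1 a2)) (by omega) (by
      simp only [ite_mul, one_mul, zero_mul]
      rw [Finset.sum_ite_eq', if_pos (Finset.mem_range.2 hk1)]
      omega) (by
      simp only [ite_mul, one_mul, zero_mul]
      rw [Finset.sum_ite_eq', if_pos (Finset.mem_range.2 hk2)]
      omega) (by simp)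
  exact e2 σ _ (e1.act hσ)

/-- two components of degree at most two -/
theorem trackD_two {n : ℕ} (hn : 2 < n) {D : ℕ → ℕ} {k1 k2 : ℕ} (h12 : k1 ≠ k2)
    (hk1 : k1 < n) (hk2 : k2 < n) (hk1' : 0 < k1) (hk2' : 0 < k2)
    (h0 : ∀ e < n, e ≠ k1 → e ≠ k2 → D e = 0) (h1 : D k1 ≤ 2) (h2 : D k2 ≤ 2) : TrackD n D := by
  classical
  obtain ⟨g, hg⟩ : ∃ g, g = k1.gcd k2 := ⟨_, rfl⟩
  have hg0 : 0 < g := by
    rw [hg]
    exact Nat.gcd_pos_of_pos_left _ hk1'
  obtain ⟨s, hs⟩ : g ∣ k1 := by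
    rw [hg]
    exact Nat.gcd_dvd_left _ _
  obtain ⟨l, hl⟩ : g ∣ k2 := by
    rw [hg]
    exact Nat.gcd_dvd_right _ _
  by_cases hcop : g.Coprime n
  swap
  · refine trackD_gcd hn hcop fun e he => ?_
    by_cases a1 : e = k1
    · right
      rw [a1, hs]
      exact (Nat.gcd_dvd_left _ _).mul_right _
    by_cases a2 : e = k2
    · right
      rw [a2, hl]
      exact (Nat.gcd_dvd_left _ _).mul_right _
    · exact Or.inl (h0 e he a1 a2)
  have hs0 : 0 < s := Nat.pos_of_ne_zero fun h => by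
    rw [h, mul_zero] at hs
    omega
  have hl0 : 0 < l := Nat.pos_of_ne_zero fun h => by
    rw [h, mul_zero] at hl
    omega
  have hsl : s.Coprime l := by
    have h3 : g * s.gcd l = g := by
      rw [← Nat.gcd_mul_left, ← hs, ← hl, ← hg]
    have h4 : s.gcd l = 1 := by
      have h5 : g * s.gcd l = g * 1 := by rw [h3, mul_one]
      exact Nat.eq_of_mul_eq_mul_left hg0 h5
    exact h4
  have hsn : s ≤ k1 := by
    rw [hs]
    exact Nat.le_mul_of_pos_left _ hg0
  have hln : l ≤ k2 := by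
    rw [hl]
    exact Nat.le_mul_of_pos_left _ hg0
  have d1 : ¬ n ∣ s := fun h => by
    have := Nat.le_of_dvd hs0 h
    omega
  have d2 : ¬ n ∣ l := fun h => by
    have := Nat.le_of_dvd hl0 h
    omega
  obtain ⟨t, ht, ht'⟩ := exists_inv (by omega : 0 < n) hcop
  by_cases h3 : n ∣ s + l
  · -- a pencil
    have h4 : s + l = n := by
      obtain ⟨c, hc⟩ := h3
      have h5 : s + l < n * 2 := by omega
      rw [hc] at h5
      have h6 : c < 2 := lt_of_mul_lt_mul_left h5 (Nat.zero_le _)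
      have h7 : c ≠ 0 := by
        rintro rfl
        omega
      have h8 : c = 1 := by omega
      rw [hc, h8, mul_one]
    have hsc : s.Coprime n := by
      rw [← h4]
      exact Nat.coprime_self_add_right.2 hsl
    obtain ⟨t2, ht2, ht2'⟩ := exists_inv (by omega : 0 < n) hsc
    have n1 : ¬ n ∣ 1 := fun h => by
      have := Nat.le_of_dvd one_pos h
      omega
    have n2 : ¬ n ∣ 1 + 1 := fun h => by
      have := Nat.le_of_dvd (by norm_num) h
      omega
    refine ⟨1, 1, 1, Nat.coprime_one_left n, by simp, n1, n1, n2,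
      fun {Ω R M} _ _ _ _ _ _ _ _ _ _ hfin H σ ζ hσ => Or.inl ?_⟩
    have htt : (t2 * t).Coprime n := Nat.Coprime.mul_left ht2 ht
    have m1 : (t2 * t * k1) % n = 1 % n := by
      rw [hs]
      have e1 : t2 * t * (g * s) = (t * g) * (t2 * s) := by ring
      rw [e1, Nat.mul_mod, ht', ht2', ← Nat.mul_mod, one_mul]
    have m2 : (t2 * t * k2 + 1) % n = 0 % n := by
      have e1 : t2 * t * k1 + t2 * t * k2 = t2 * (t * g) * n := by
        rw [hs, hl, ← h4]
        ring
      have e2 : (t2 * t * k1 + t2 * t * k2) % n = 0 := by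
        rw [e1]
        exact Nat.mul_mod_left _ _
      have e3 : (t2 * t * k2 + 1) % n = (t2 * t * k1 + t2 * t * k2) % n := by
        rw [Nat.add_mod, ← m1, ← Nat.add_mod, add_comm]
      rw [e3, e2, Nat.zero_mod]
    obtain ⟨w', e1, e2, e3⟩ := twist43 H (by omega) htt (fun e => if e = k2 then 1 else 0)
      (fun e => if e = k1 then 1 else 0) (fun e he => by
        by_cases a1 : e = k1
        · subst a1
          right
          simpa [h12] using m1
        by_cases a2 : e = k2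
        · subst a2
          right
          simpa [a1] using m2
        · exact Or.inl (h0 e he a1 a2))
    have q0 := prodP_ne H.ne (n := n) (fun e => if e = k2 then 1 else 0)
    have f0 := prodP_ne H.ne (n := n) (fun e => if e = k1 then 1 else 0)
    obtain ⟨u, hu⟩ : ∃ u : R, w' ^ n = algebraMap R M u := by
      refine ⟨aeval ![H.x, H.y] (prodP n H.P fun e => if e = k1 then 1 else 0) /
        aeval ![H.x, H.y] (prodP n H.P fun e => if e = k2 then 1 else 0), ?_⟩
      rw [map_div₀, eq_div_iff, e2]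
      exact (map_ne_zero (algebraMap R M)).2 q0
    have hmem : w' ^ n ∈ adjoin Ω {algebraMap R M H.x, algebraMap R M H.y} := by
      have h2 : adjoin Ω {H.x, H.y} ≤
          (adjoin Ω {algebraMap R M H.x, algebraMap R M H.y}).comap
            (IsScalarTower.toAlgHom Ω R M) := by
        rw [adjoin_le_iff]
        rintro s (rfl | rfl)
        · exact subset_adjoin _ _ (by simp)
        · exact subset_adjoin _ _ (by simp)
      rw [H.gen] at h2
      rw [hu]
      exact h2 (mem_top (x := u))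
    obtain ⟨-, htop, -, -, -, -⟩ := cyc_data H.x H.y H.gen w' e1 hfin hmem
    have h5 : Uniruled Ω (adjoin Ω {algebraMap R M H.x, algebraMap R M H.y, w'} :
        IntermediateField Ω M) 2 := by
      refine Pool.Agent.Helper9.TR.uni_binomial (a := 1) (b := 1) (c := 0) (n := n) (by norm_num)
        (by omega) (prodP n H.P fun e => if e = k2 then 1 else 0)
        (prodP n H.P fun e => if e = k1 then 1 else 0)
        (deg_of (prodP_deg H.deg _) (by
          simp only [ite_mul, one_mul, zero_mul]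
          rw [Finset.sum_ite_eq', if_pos (Finset.mem_range.2 hk2)]
          omega))
        (deg_of (prodP_deg H.deg _) (by
          simp only [ite_mul, one_mul, zero_mul]
          rw [Finset.sum_ite_eq', if_pos (Finset.mem_range.2 hk1)]
          omega)) _ _ _ ?_ ?_
      · rw [aeval_map75]
        exact (map_ne_zero (algebraMap R M)).2 f0
      · rw [aeval_map75, aeval_map75, e2]
    rw [htop] at h5
    exact Pool.Agent.Helper40.SD.uniruled_of_hom (topEquiv (F := Ω) (E := M)).symm.toAlgHom h5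
  · have m1 : (t * k1) % n = s % n := by
      rw [hs, ← mul_assoc, Nat.mul_mod, ht', ← Nat.mul_mod, one_mul]
    have m2 : (t * k2) % n = l % n := by
      rw [hl, ← mul_assoc, Nat.mul_mod, ht', ← Nat.mul_mod, one_mul]
    refine ⟨s, l, t, ht, ?_, d1, d2, h3,
      fun {Ω R M} _ _ _ _ _ _ _ _ _ _ hfin H σ ζ hσ => Or.inr ?_⟩
    · rw [hsl.gcd_eq_one]
      exact Nat.coprime_one_left n
    obtain ⟨w', e1, e2⟩ := rep_rowT H hfin (by omega) (k := s) (l := l) (a := 1) (c := 0) ht
      hsl hs0 hl0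
      (fun e => if e = k1 then 1 else 0) (fun _ => 0) (fun e => if e = k2 then 1 else 0)
      (fun e he => by
        by_cases a1 : e = k1
        · subst a1
          right
          simpa [h12] using m1
        by_cases a2 : e = k2
        · subst a2
          right
          simpa [a1] using m2
        · exact Or.inl (h0 e he a1 a2)) (by omega) (by
        simp only [ite_mul, one_mul, zero_mul]
        rw [Finset.sum_ite_eq', if_pos (Finset.mem_range.2 hk1)]
        omega) (by simp) (by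
        simp only [ite_mul, one_mul, zero_mul]
        rw [Finset.sum_ite_eq', if_pos (Finset.mem_range.2 hk2)]
        omega)
    exact e2 σ _ (e1.act hσ)

end Pool.Agent.Helper43.HH
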