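import Pool.Agent.Helper43.HH.Base
import Pool.Agent.Helper9.TR.Twist

/-! Project HH (joins), block TRK: the rows with explicit exponents `α`, `β`. -/

set_option autoImplicit false

namespace Pool.Agent.Helper43.HH

open IntermediateField MvPolynomial Pool.Agent.Helper75.QC Pool.Agent.Helper75.WC
  Pool.Agent.Helper48.HH

variable {Ω R M : Type} [Field Ω] [IsAlgClosed Ω] [Field R] [Field M] [Algebra Ω R] [Algebra Ω M]
    [Algebra R M] [IsScalarTower Ω R M] [FiniteDimensional R M] [IsGalois R M]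

omit [IsAlgClosed Ω] in
/-- the row from the uniruled threefolds -/
theorem rowP_of (x y : R) (hR : adjoin Ω {x, y} = ⊤) (w : M) (hw : adjoin R {w} = ⊤) {n : ℕ}
    (hn : Module.finrank R M = n) (h1 : 1 < n) {u : R} (hwn : w ^ n = algebraMap R M u)
    {σ : M →ₐ[R] M} {ζ : Ω} (hσ : σ w = algebraMap Ω M ζ * w) {α β : ℕ}
    (huni : (n : Ω) ≠ 0 → w ≠ 0 → ∀ (N : Type) [Field N] [Algebra Ω N] (g : M →ₐ[Ω] N) (v s : N),
      v ≠ 0 → 1 - v ≠ 0 → s ≠ 0 → v ^ α * (1 - v) ^ β = s ^ n * g w ^ n →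
      Uniruled Ω (adjoin Ω {g (algebraMap R M x), g (algebraMap R M y), v, s} :
        IntermediateField Ω N) 3) :
    RowP Ω M (σ.restrictScalars Ω) n α β ζ := by
  have hmem : algebraMap R M u ∈ adjoin Ω {algebraMap R M x, algebraMap R M y} := by
    have h2 : adjoin Ω {x, y} ≤ (adjoin Ω {algebraMap R M x, algebraMap R M y}).comap
        (IsScalarTower.toAlgHom Ω R M) := by
      rw [adjoin_le_iff]
      rintro s (rfl | rfl)
      · exact subset_adjoin _ _ (by simp)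
      · exact subset_adjoin _ _ (by simp)
    rw [hR] at h2
    exact h2 (mem_top (x := u))
  rw [← hwn] at hmem
  obtain ⟨hn0, htop, -, hcast, hw0, -⟩ := cyc_data x y hR w hw hn hmem
  refine ⟨algebraMap R M x, algebraMap R M y, w, htop, hw0 h1, hmem, ?_, ?_, ?_,
    fun N _ _ g v s hv hvs => ?_⟩
  · exact σ.commutes x
  · exact σ.commutes y
  · exact hσ
  · have hv0 : v ≠ 0 := by
      rintro rfl
      exact hv isAlgebraic_zero
    have hv1 : 1 - v ≠ 0 := by
      intro h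
      have h2 : v = 1 := (sub_eq_zero.1 h).symm
      rw [h2] at hv
      exact hv (isAlgebraic_algebraMap (1 : g.fieldRange))
    refine huni hcast (hw0 h1) N g v s hv0 hv1 ?_ hvs
    rintro rfl
    rw [zero_pow (by omega), zero_mul] at hvs
    exact mul_ne_zero (pow_ne_zero _ hv0) (pow_ne_zero _ hv1) hvs

omit [IsAlgClosed Ω] [FiniteDimensional R M] [IsGalois R M] in
theorem aeval_hom {N : Type} [Field N] [Algebra Ω N] (g : M →ₐ[Ω] N) (x y : R)
    (f : MvPolynomial (Fin 2) Ω) :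
    aeval ![g (algebraMap R M x), g (algebraMap R M y)] f = g (algebraMap R M (aeval ![x, y] f)) := by
  rw [← map_aeval75 g, aeval_map75]

/-- the equation `w ^ n q ^ 2 = f` -/
theorem rowA (x y : R) (hR : adjoin Ω {x, y} = ⊤) (w : M) (hw : adjoin R {w} = ⊤) {n : ℕ}
    (hn : Module.finrank R M = n) (h2 : 1 < n) {σ : M →ₐ[R] M} {ζ : Ω}
    (hσ : σ w = algebraMap Ω M ζ * w) {a b c i j : ℕ} {f q : MvPolynomial (Fin 2) Ω}
    (hpos : 0 < a + b + c) (hij : 2 * i = j + n ∨ j = 2 * i + n)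
    (hf : DegLE a b c j (2 * (a + b + c)) f) (hq : DegLE a b c i (a + b + c) q)
    (hq0 : aeval ![x, y] q ≠ 0)
    (heq : w ^ n * algebraMap R M (aeval ![x, y] q ^ 2) = algebraMap R M (aeval ![x, y] f)) :
    RowP Ω M (σ.restrictScalars Ω) n 1 1 ζ := by
  have hwn : w ^ n = algebraMap R M (aeval ![x, y] f / aeval ![x, y] q ^ 2) := by
    rw [map_div₀, eq_div_iff, heq]
    exact (map_ne_zero (algebraMap R M)).2 (pow_ne_zero _ hq0)
  refine rowP_of x y hR w hw hn h2 hwn hσ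
    fun hcast hw0 N _ _ g v s hv0 hv1 hs0 hvs => ?_
  refine uni_A hij hpos hq hf _ _ v s ?_ hs0 ?_
  · rw [aeval_hom]
    exact (map_ne_zero g).2 ((map_ne_zero (algebraMap R M)).2 hq0)
  · rw [pow_one, pow_one] at hvs
    rw [hvs, aeval_hom, aeval_hom, ← heq, map_mul, map_pow, map_pow, map_pow]
    ring

/-- the equation `w ^ n = f g ^ (m - 1)`, `n = 2 m` -/
theorem rowB (x y : R) (hR : adjoin Ω {x, y} = ⊤) (w : M) (hw : adjoin R {w} = ⊤) {n : ℕ}
    (hn : Module.finrank R M = n) {m : ℕ} (hm : n = 2 * m) (hm2 : 0 < m) {σ : M →ₐ[R] M} {ζ : Ω}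
    (hσ : σ w = algebraMap Ω M ζ * w) {a b c i j : ℕ} {f q : MvPolynomial (Fin 2) Ω}
    (hpos : 0 < a + b + c) (hi : Odd i) (hij : j = i + m ∨ i = j + m)
    (hf : DegLE a b c j (2 * (a + b + c)) f) (hq : DegLE a b c i (2 * (a + b + c)) q)
    (hq0 : aeval ![x, y] q ≠ 0)
    (heq : w ^ n = algebraMap R M (aeval ![x, y] f * aeval ![x, y] q ^ (m - 1))) :
    RowP Ω M (σ.restrictScalars Ω) n 1 m ζ := by
  refine rowP_of x y hR w hw hn (by omega) heq hσ
    fun hcast hw0 N _ _ g v s hv0 hv1 hs0 hvs => ?_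
  have h2 : (2 : Ω) ≠ 0 := by
    intro h0
    apply hcast
    rw [hm, Nat.cast_mul, Nat.cast_ofNat, h0, zero_mul]
  refine uni_B h2 hi hm2 hij hpos hq hf _ _ v s ?_ hs0 hv1 ?_
  · rw [aeval_hom]
    exact (map_ne_zero g).2 ((map_ne_zero (algebraMap R M)).2 hq0)
  · rw [pow_one] at hvs
    rw [hvs, aeval_hom, aeval_hom, ← map_pow g w, heq, map_mul, map_pow, map_mul, map_pow, hm]

/-- the equation `w ^ n g ^ (s + t) = f ^ s h ^ t` -/
theorem rowT (x y : R) (hR : adjoin Ω {x, y} = ⊤) (w : M) (hw : adjoin R {w} = ⊤) {n : ℕ}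
    (hn : Module.finrank R M = n) (h2 : 1 < n) {σ : M →ₐ[R] M} {ζ : Ω}
    (hσ : σ w = algebraMap Ω M ζ * w) {a b c k l : ℕ} {f q h : MvPolynomial (Fin 2) Ω}
    (hpos : 0 < a + b + c) (hkl : k.Coprime l) (hk : 0 < k) (hl : 0 < l)
    (hf : Pool.Agent.Helper9.TR.Deg a b c 0 (a + b + c) f)
    (hq : Pool.Agent.Helper9.TR.Deg a b c l (a + b + c) q)
    (hh : Pool.Agent.Helper9.TR.Deg a b c (k + l) (a + b + c) h)
    (hf0 : aeval ![x, y] f ≠ 0) (hq0 : aeval ![x, y] q ≠ 0) (hh0 : aeval ![x, y] h ≠ 0)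
    (heq : w ^ n * algebraMap R M (aeval ![x, y] q ^ (k + l)) =
      algebraMap R M (aeval ![x, y] f ^ k * aeval ![x, y] h ^ l)) :
    RowP Ω M (σ.restrictScalars Ω) n k l ζ := by
  have hwn : w ^ n = algebraMap R M
      (aeval ![x, y] f ^ k * aeval ![x, y] h ^ l / aeval ![x, y] q ^ (k + l)) := by
    rw [map_div₀, eq_div_iff, heq]
    exact (map_ne_zero (algebraMap R M)).2 (pow_ne_zero _ hq0)
  refine rowP_of x y hR w hw hn h2 hwn hσ
    fun hcast hw0 N _ _ g v s hv0 hv1 hs0 hvs => ?_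
  have e0 : ∀ {p : MvPolynomial (Fin 2) Ω}, aeval ![x, y] p ≠ 0 →
      aeval ![g (algebraMap R M x), g (algebraMap R M y)] p ≠ 0 := fun hp => by
    rw [aeval_hom]
    exact (map_ne_zero g).2 ((map_ne_zero (algebraMap R M)).2 hp)
  refine Pool.Agent.Helper9.TR.uni_three (n := n) hpos hkl hk hl f q h hf hq hh _ _ v s (e0 hf0)
    (e0 hq0) (e0 hh0) hs0 hv0 hv1 ?_
  rw [hvs, aeval_hom, aeval_hom, aeval_hom]
  have h4 := congrArg g heq
  rw [map_mul, map_pow, map_pow, map_pow, map_mul, map_mul, map_pow, map_pow, map_pow,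
    map_pow] at h4
  rw [mul_assoc, h4]

end Pool.Agent.Helper43.HH
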