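import Pool.Agent.Helper43.HH.Rows
import Pool.Agent.Helper75.WC.CurveCert

/-! Project HH (joins), block TRK: the certificates. -/

set_option autoImplicit false

namespace Pool.Agent.Helper43.HH

open IntermediateField MvPolynomial Pool.Agent.Helper75.QC Pool.Agent.Helper75.WC
  Pool.Agent.Helper48.HH

section

variable {Ω R M : Type} [Field Ω] [IsAlgClosed Ω] [Field R] [Field M] [Algebra Ω R] [Algebra Ω M]
    [Algebra R M] [IsScalarTower Ω R M] [FiniteDimensional R M] [IsGalois R M]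

theorem rep_rowA {n : ℕ} {D : ℕ → ℕ} (H : Rep Ω R M n D) (hfin : Module.finrank R M = n)
    (hn : 1 < n) {t a c i j : ℕ}
    (ht : t.Coprime n) (v φ : ℕ → ℕ) (h : ∀ e < n, D e = 0 ∨ (t * e + 2 * v e) % n = φ e % n)
    (ha : 0 < 2 * a + c) (hij : 2 * i = j + n ∨ j = 2 * i + n)
    (hG : a * (∑ e ∈ Finset.range n, v e * D e) + c * i ≤ 2 * a + c)
    (hF : a * (∑ e ∈ Finset.range n, φ e * D e) + c * j ≤ 2 * (2 * a + c)) :
    ∃ w' : M, Rel R t H.w w' ∧ ∀ (σ : M →ₐ[R] M) (ζ : Ω), σ w' = algebraMap Ω M ζ * w' →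
      RowP Ω M (σ.restrictScalars Ω) n 1 1 ζ := by
  obtain ⟨w', h1, h2, h3⟩ := twist43 H (by omega) ht (fun e => 2 * v e) φ h
  rw [prodP_mul, map_pow] at h2
  refine ⟨w', h3, fun σ ζ hσ => ?_⟩
  exact rowA H.x H.y H.gen w' h1 hfin hn hσ (a := a) (b := a) (c := c) (i := i) (j := j) (by omega)
    hij (degLE_of (prodP_deg H.deg φ) (by omega)) (degLE_of (prodP_deg H.deg v) (by omega))
    (prodP_ne H.ne v) h2

theorem rep_two {D : ℕ → ℕ} (H : Rep Ω R M 2 D) (hfin : Module.finrank R M = 2)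
    {t a i j : ℕ}
    (ht : t.Coprime 2) (v φ : ℕ → ℕ) (h : ∀ e < 2, D e = 0 ∨ (t * e + 2 * v e) % 2 = φ e % 2)
    (ha : 0 < 2 * a) (hij : 2 * i = j + 2 ∨ j = 2 * i + 2)
    (hG : a * (∑ e ∈ Finset.range 2, v e * D e) ≤ 2 * a)
    (hF : a * (∑ e ∈ Finset.range 2, φ e * D e) ≤ 2 * (2 * a)) :
    Uniruled Ω M 2 := by
  obtain ⟨w', h1, h2, h3⟩ := twist43 H (by omega) ht (fun e => 2 * v e) φ h
  rw [prodP_mul, map_pow] at h2
  refine (row_uni H.x H.y H.gen w' h1 hfin ⟨a, a, 0, i, j, prodP 2 H.P φ, prodP 2 H.P v, by omega,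
    Or.inr rfl, degLE_of (prodP_deg H.deg φ) (by omega), Or.inl ⟨hij,
    degLE_of (prodP_deg H.deg v) (by omega), ?_, ?_⟩⟩).2.1 le_rfl
  · rw [aeval_map75]
    exact fun h0 => prodP_ne H.ne v ((map_eq_zero (algebraMap R M)).1 h0)
  · rw [aeval_map75, aeval_map75, ← h2, map_pow]

theorem rep_rowB {n : ℕ} {D : ℕ → ℕ} (H : Rep Ω R M n D) (hfin : Module.finrank R M = n)
    (hn : 0 < n) {t a c i j m : ℕ}
    (ht : t.Coprime n) (v φ : ℕ → ℕ)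
    (h : ∀ e < n, D e = 0 ∨ (t * e) % n = (φ e + (m - 1) * v e) % n)
    (ha : 0 < 2 * a + c) (hi : Odd i) (hm : n = 2 * m)
    (hij : j = i + m ∨ i = j + m)
    (hG : a * (∑ e ∈ Finset.range n, v e * D e) + c * i ≤ 2 * (2 * a + c))
    (hF : a * (∑ e ∈ Finset.range n, φ e * D e) + c * j ≤ 2 * (2 * a + c)) :
    ∃ w' : M, Rel R t H.w w' ∧ ∀ (σ : M →ₐ[R] M) (ζ : Ω), σ w' = algebraMap Ω M ζ * w' →
      RowP Ω M (σ.restrictScalars Ω) n 1 m ζ := by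
  obtain ⟨w', h1, h2, h3⟩ := twist43 H hn ht (fun _ => 0) (fun e => φ e + (m - 1) * v e)
    (by simpa using h)
  have h4 : prodP n H.P (fun _ => 0) = 1 := by
    unfold prodP
    simp
  rw [h4, map_one, map_one, mul_one, prodP_add, prodP_mul, map_mul, map_pow] at h2
  refine ⟨w', h3, fun σ ζ hσ => ?_⟩
  exact rowB H.x H.y H.gen w' h1 hfin hm (by omega) hσ (a := a) (b := a) (c := c) (i := i) (j := j)
    (by omega) hi hij (degLE_of (prodP_deg H.deg φ) (by omega))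
    (degLE_of (prodP_deg H.deg v) (by omega)) (prodP_ne H.ne v) h2

theorem rep_rowP {n : ℕ} {D : ℕ → ℕ} (H : Rep Ω R M n D) (hfin : Module.finrank R M = n)
    (hn : 1 < n) {t e1 : ℕ}
    (ht : t.Coprime n) (v φ : ℕ → ℕ) (h : ∀ e < n, D e = 0 ∨ (t * e + 2 * v e) % n = φ e % n)
    (he : D e1 ≤ 1)
    (hG : ∑ e ∈ Finset.range n, v e * Function.update D e1 0 e ≤ 1)
    (hF : ∑ e ∈ Finset.range n, φ e * Function.update D e1 0 e ≤ 2) :
    ∃ w' : M, Rel R t H.w w' ∧ ∀ (σ : M →ₐ[R] M) (ζ : Ω), σ w' = algebraMap Ω M ζ * w' →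
      RowP Ω M (σ.restrictScalars Ω) n 1 1 ζ := by
  obtain ⟨H', h1, hw⟩ := axis43 H he
  obtain ⟨w', h2, h3, h4⟩ := twist43 H' (by omega) ht (fun e => 2 * v e) φ h
  rw [prodP_mul, map_pow] at h3
  rw [hw] at h4
  refine ⟨w', h4, fun σ ζ hσ => ?_⟩
  exact rowA H'.x H'.y H'.gen w' h2 hfin hn hσ (a := 0) (b := 1) (c := 0) (i := n) (j := n)
    (by omega) (Or.inl (by omega)) (degLE_y H'.deg h1 φ hF) (degLE_y H'.deg h1 v hG)
    (prodP_ne H'.ne v) h3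

omit [IsAlgClosed Ω] in
theorem deg_of {f : MvPolynomial (Fin 2) Ω} {d : ℕ} (hf : f.totalDegree ≤ d) {a c i k : ℕ}
    (h : a * d + c * i ≤ k) : Pool.Agent.Helper9.TR.Deg a a c i k f :=
  degLE_of hf h

theorem rep_rowT {n : ℕ} {D : ℕ → ℕ} (H : Rep Ω R M n D) (hfin : Module.finrank R M = n)
    (hn : 1 < n) {t k l a c : ℕ} (ht : t.Coprime n) (hkl : k.Coprime l) (hk : 0 < k) (hl : 0 < l)
    (u v h : ℕ → ℕ)
    (hc : ∀ e < n, D e = 0 ∨ (t * e + (k + l) * v e) % n = (k * u e + l * h e) % n)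
    (ha : 0 < 2 * a + c)
    (hF : a * (∑ e ∈ Finset.range n, u e * D e) ≤ 2 * a + c)
    (hG : a * (∑ e ∈ Finset.range n, v e * D e) + c * l ≤ 2 * a + c)
    (hH : a * (∑ e ∈ Finset.range n, h e * D e) + c * (k + l) ≤ 2 * a + c) :
    ∃ w' : M, Rel R t H.w w' ∧ ∀ (σ : M →ₐ[R] M) (ζ : Ω), σ w' = algebraMap Ω M ζ * w' →
      RowP Ω M (σ.restrictScalars Ω) n k l ζ := by
  obtain ⟨w', h1, h2, h3⟩ := twist43 H (by omega) ht (fun e => (k + l) * v e)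
    (fun e => k * u e + l * h e) hc
  have e1 : aeval ![H.x, H.y] (prodP n H.P fun e => (k + l) * v e) =
      aeval ![H.x, H.y] (prodP n H.P v) ^ (k + l) := by rw [prodP_mul, map_pow]
  have e2 : aeval ![H.x, H.y] (prodP n H.P fun e => k * u e + l * h e) =
      aeval ![H.x, H.y] (prodP n H.P u) ^ k * aeval ![H.x, H.y] (prodP n H.P h) ^ l := by
    rw [prodP_add, prodP_mul, prodP_mul, map_mul, map_pow, map_pow]
  rw [e1, e2] at h2
  refine ⟨w', h3, fun σ ζ hσ => ?_⟩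
  exact rowT H.x H.y H.gen w' h1 hfin hn hσ (a := a) (b := a) (c := c) (by omega) hkl hk hl
    (deg_of (prodP_deg H.deg u) (by omega)) (deg_of (prodP_deg H.deg v) (by omega))
    (deg_of (prodP_deg H.deg h) (by omega)) (prodP_ne H.ne u) (prodP_ne H.ne v)
    (prodP_ne H.ne h) h2

end

/-- the move of a certificate -/
theorem cert_move {Ω R M : Type} [Field Ω] [Field R] [Field M] [Algebra Ω R] [Algebra Ω M]
    [Algebra R M] {n : ℕ} {L : List ℕ} {e0 : ℕ} (he : e0 < n) (h0 : e0 = 0 ∨ ent L e0 = 1)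
    (hL0 : ent L 0 = 0) (H : Rep Ω R M n (ent L))
    (hsum : n ∣ ∑ e ∈ Finset.range n, e * ent L e) :
    ∃ H' : Rep Ω R M n (ent (L.set e0 0)), Rel R 1 H.w H'.w := by
  rw [ent_set]
  rcases h0 with h0 | h0
  · have h1 : Function.update (ent L) e0 0 = ent L := by
      rw [h0]
      nth_rewrite 2 [← hL0]
      exact Function.update_eq_self _ _
    rw [h1]
    exact ⟨H, Rel.refl R _⟩
  · exact move43 H (Finset.mem_range.2 he) h0 hsum

/-- A certificate for a trinomial. -/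
structure CertT where
  L : List ℕ
  e0 : ℕ
  t : ℕ
  k : ℕ
  l : ℕ
  a : ℕ
  c : ℕ
  u : List ℕ
  v : List ℕ
  h : List ℕ

/-- the degrees after the line `e0` is moved to infinity -/
def CertT.D (c : CertT) : List ℕ := c.L.set c.e0 0

def CertT.ok (n : ℕ) (c : CertT) : Prop :=
  c.t.Coprime n ∧ c.k.Coprime c.l ∧ 0 < c.k ∧ 0 < c.l ∧ c.e0 < n ∧
    (c.e0 = 0 ∨ ent c.L c.e0 = 1) ∧ ent c.L 0 = 0 ∧ ¬ n ∣ c.k ∧ ¬ n ∣ c.l ∧ ¬ n ∣ c.k + c.l ∧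
    (∀ e < n, ent c.D e = 0 ∨
      (c.t * e + (c.k + c.l) * ent c.v e) % n = (c.k * ent c.u e + c.l * ent c.h e) % n) ∧
    0 < 2 * c.a + c.c ∧
    c.a * (∑ e ∈ Finset.range n, ent c.u e * ent c.D e) ≤ 2 * c.a + c.c ∧
    c.a * (∑ e ∈ Finset.range n, ent c.v e * ent c.D e) + c.c * c.l ≤ 2 * c.a + c.c ∧
    c.a * (∑ e ∈ Finset.range n, ent c.h e * ent c.D e) + c.c * (c.k + c.l) ≤ 2 * c.a + c.c

instance (n : ℕ) (c : CertT) : Decidable (c.ok n) := by unfold CertT.ok; infer_instance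

/-- the conclusion of the block TRK for one type -/
def Track (n : ℕ) (L : List ℕ) : Prop :=
  ∃ α β t : ℕ, t.Coprime n ∧ (n ≤ 2 ∨ (α.gcd β).Coprime n ∧ ¬ n ∣ α ∧ ¬ n ∣ β ∧ ¬ n ∣ α + β) ∧
    ∀ {Ω R M : Type} [Field Ω] [IsAlgClosed Ω] [Field R] [Field M] [Algebra Ω R] [Algebra Ω M]
      [Algebra R M] [IsScalarTower Ω R M] [FiniteDimensional R M] [IsGalois R M],
      Module.finrank R M = n → ∀ (H : Rep Ω R M n (ent L)) (σ : M →ₐ[R] M) (ζ : Ω),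
        σ H.w = algebraMap Ω M ζ * H.w →
        Uniruled Ω M 2 ∨ RowP Ω M (σ.restrictScalars Ω) n α β (ζ ^ t)

theorem CertT.track {n : ℕ} (hn : 1 < n) {c : CertT} (h : c.ok n)
    (hsum : n ∣ ∑ e ∈ Finset.range n, e * ent c.L e) : Track n c.L := by
  obtain ⟨ht, hkl, hk, hl, he, h0, hL0, d1, d2, d3, hc, ha, hF, hG, hH⟩ := h
  refine ⟨c.k, c.l, c.t, ht, Or.inr ⟨?_, d1, d2, d3⟩, fun {Ω R M} _ _ _ _ _ _ _ _ _ _ hfin H σ ζ hσ
    => Or.inr ?_⟩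
  · rw [hkl.gcd_eq_one]
    exact Nat.coprime_one_left n
  · obtain ⟨H', h1⟩ := cert_move he h0 hL0 H hsum
    obtain ⟨w', h2, h3⟩ := rep_rowT H' hfin hn ht hkl hk hl (ent c.u) (ent c.v) (ent c.h) hc ha hF
      hG hH
    exact h3 σ _ ((h1.trans h2).act hσ)

theorem cert_track {n : ℕ} (hn : 2 < n) {c : Cert} (h : c.ok n) (hk2 : c.kind ≠ 2)
    (hsum : n ∣ ∑ e ∈ Finset.range n, e * ent c.L e) : Track n c.L := by
  obtain ⟨ht, he, h0, hL0, hk⟩ := h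
  have n1 : ¬ n ∣ 1 := fun h => by
    have := Nat.le_of_dvd one_pos h
    omega
  have n2 : ¬ n ∣ 1 + 1 := fun h => by
    have := Nat.le_of_dvd (by norm_num) h
    omega
  rcases hk with ⟨-, h1, h2, h3, h4, h5, h6⟩ | ⟨-, h1, h2, h3, h4, h5, h6, h7, h8⟩ | ⟨h, -⟩ |
    ⟨-, h1, h2, h3, h4⟩
  · refine ⟨1, 1, c.t, ht, Or.inr ⟨by simp, n1, n1, n2⟩, fun {Ω R M} _ _ _ _ _ _ _ _ _ _ hfin H σ ζ
      hσ => Or.inr ?_⟩
    obtain ⟨H', e1⟩ := cert_move he h0 hL0 H hsum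
    obtain ⟨w', e2, e3⟩ := rep_rowA H' hfin (by omega) ht (ent c.u) (ent c.v) h1 h2 h4 h5 h6
    exact e3 σ _ ((e1.trans e2).act hσ)
  · refine ⟨1, n / 2, c.t, ht, Or.inr ⟨by simp, n1, fun h => ?_, fun h => ?_⟩,
      fun {Ω R M} _ _ _ _ _ _ _ _ _ _ hfin H σ ζ hσ => Or.inr ?_⟩
    · have := Nat.le_of_dvd (by omega) h
      omega
    · have := Nat.le_of_dvd (by omega) h
      omega
    obtain ⟨H', e1⟩ := cert_move he h0 hL0 H hsum
    obtain ⟨w', e2, e3⟩ := rep_rowB H' hfin (by omega) ht (ent c.u) (ent c.v) h1 h2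
      (Nat.odd_iff.2 h4) h5 h6 h7 h8
    exact e3 σ _ ((e1.trans e2).act hσ)
  · exact absurd h hk2
  · refine ⟨1, 1, c.t, ht, Or.inr ⟨by simp, n1, n1, n2⟩, fun {Ω R M} _ _ _ _ _ _ _ _ _ _ hfin H σ ζ
      hσ => Or.inr ?_⟩
    obtain ⟨H', e1⟩ := cert_move he h0 hL0 H hsum
    rw [ent_set] at h3 h4
    obtain ⟨w', e2, e3⟩ := rep_rowP H' hfin (by omega) ht (ent c.u) (ent c.v) h1 h2 h3 h4
    exact e3 σ _ ((e1.trans e2).act hσ)

/-- `n = 2` -/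
theorem cert_two {c : Cert} (h : c.ok 2) (hk : c.kind = 0)
    (hsum : 2 ∣ ∑ e ∈ Finset.range 2, e * ent c.L e) : Track 2 c.L := by
  obtain ⟨ht, he, h0, hL0, hk'⟩ := h
  rcases hk' with ⟨-, h1, h2, h3, h4, h5, h6⟩ | ⟨h, -⟩ | ⟨h, -⟩ | ⟨h, -⟩
  · refine ⟨1, 1, c.t, ht, Or.inl le_rfl, fun {Ω R M} _ _ _ _ _ _ _ _ _ _ hfin H σ ζ
      hσ => Or.inl ?_⟩
    obtain ⟨H', e1⟩ := cert_move he h0 hL0 H hsum
    have hq : ent c.q 1 = 0 := h3.resolve_left (by norm_num)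
    rw [hq, zero_mul, add_zero] at h5 h6
    rw [hq] at h2
    exact rep_two H' hfin ht (ent c.u) (ent c.v) h1 (by omega) h4 h5 h6
  · omega
  · omega
  · omega

/-- all types of a list -/
theorem track_of {n : ℕ} (hn : 2 < n) {cs : List Cert} {ts : List CertT}
    (hcs : ∀ c ∈ cs, c.ok n) (hts : ∀ c ∈ cs, c.kind = 2 → ∃ c' ∈ ts, c'.L = c.L ∧ c'.ok n)
    {L : List ℕ} (hL : ∃ c ∈ cs, c.L = 0 :: L)
    (hsum : n ∣ ∑ e ∈ Finset.range n, e * ent (0 :: L) e) : Track n (0 :: L) := by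
  obtain ⟨c, hc, hcL⟩ := hL
  rw [← hcL] at hsum ⊢
  by_cases h : c.kind = 2
  · obtain ⟨c', -, h1, h2⟩ := hts c hc h
    rw [← h1] at hsum ⊢
    exact CertT.track (by omega) h2 hsum
  · exact cert_track hn (hcs c hc) h hsum

end Pool.Agent.Helper43.HH
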