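import Pool.Agent.Helper43.HH.Sound
import Pool.Agent.Helper43.V7.Dec

/-! Project HH (joins), block TRK: `StmtTrack n` for `n = 2, ..., 7` and `n = 10`. -/

set_option autoImplicit false

namespace Pool.Agent.Helper43.HH

open IntermediateField Pool.Agent.Helper75.QC Pool.Agent.Helper75.WC Pool.Agent.Helper48.HH
  Pool.Agent.Helper43.V7

/-- the trinomials, exponent 7 -/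
def ts7 : List CertT :=
  [⟨[0, 0, 0, 0, 0, 2, 3], 0, 5, 2, 1, 1, 1, [0, 0, 0, 0, 0, 0, 1], [0, 0, 0, 0, 0, 1], []⟩,
   ⟨[0, 0, 0, 2, 0, 2, 2], 0, 1, 3, 5, 1, 0, [0, 0, 0, 1], [0, 0, 0, 0, 0, 0, 1], [0, 0, 0, 0, 0, 1]⟩,
   ⟨[0, 0, 0, 2, 0, 3, 0], 0, 6, 2, 1, 1, 1, [0, 0, 0, 0, 0, 1], [0, 0, 0, 1], []⟩,
   ⟨[0, 0, 0, 2, 1, 1, 1], 0, 1, 3, 5, 1, 0, [0, 0, 0, 1], [0, 0, 0, 0, 1, 0, 1], [0, 0, 0, 0, 1, 1]⟩,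
   ⟨[0, 0, 0, 3, 0, 0, 2], 0, 3, 2, 1, 1, 1, [0, 0, 0, 1], [0, 0, 0, 0, 0, 0, 1], []⟩,
   ⟨[0, 0, 1, 1, 0, 2, 1], 0, 1, 3, 5, 1, 0, [0, 0, 1, 1], [0, 0, 1, 0, 0, 0, 1], [0, 0, 0, 0, 0, 1]⟩,
   ⟨[0, 0, 3, 0, 2, 0, 0], 0, 1, 2, 1, 1, 1, [0, 0, 1], [0, 0, 0, 0, 1], []⟩,
   ⟨[0, 1, 0, 1, 0, 1, 2], 0, 1, 3, 5, 1, 0, [0, 1, 0, 1], [0, 0, 0, 0, 0, 0, 1], [0, 1, 0, 0, 0, 1]⟩,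
   ⟨[0, 1, 1, 1, 2, 0, 0], 0, 1, 1, 4, 1, 0, [0, 1, 0, 1], [0, 0, 1, 1], [0, 0, 0, 0, 1]⟩,
   ⟨[0, 1, 2, 0, 1, 1, 0], 0, 1, 1, 4, 1, 0, [0, 1, 0, 0, 0, 1], [0, 0, 1], [0, 0, 0, 0, 1, 1]⟩,
   ⟨[0, 2, 0, 0, 3, 0, 0], 0, 4, 2, 1, 1, 1, [0, 0, 0, 0, 1], [0, 1], []⟩,
   ⟨[0, 2, 1, 0, 1, 0, 1], 0, 1, 1, 4, 1, 0, [0, 1], [0, 0, 1, 0, 0, 0, 1], [0, 0, 0, 0, 1, 0, 1]⟩,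
   ⟨[0, 2, 2, 0, 2, 0, 0], 0, 1, 1, 4, 1, 0, [0, 1], [0, 0, 1], [0, 0, 0, 0, 1]⟩,
   ⟨[0, 3, 2, 0, 0, 0, 0], 0, 2, 2, 1, 1, 1, [0, 1], [0, 0, 1], []⟩]

/-- the trinomials, exponent 10 -/
def ts10 : List CertT :=
  [⟨[0, 0, 0, 0, 0, 0, 0, 2, 1, 2], 0, 1, 4, 9, 1, 0, [0, 0, 0, 0, 0, 0, 0, 0, 2], [0, 0, 0, 0, 0, 0, 0, 1], [0, 0, 0, 0, 0, 0, 0, 0, 0, 1]⟩,
   ⟨[0, 0, 0, 0, 2, 0, 0, 2, 0, 2], 0, 1, 4, 9, 1, 0, [0, 0, 0, 0, 1], [0, 0, 0, 0, 0, 0, 0, 1], [0, 0, 0, 0, 0, 0, 0, 0, 0, 1]⟩,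
   ⟨[0, 0, 0, 0, 3, 0, 0, 0, 0, 2], 0, 3, 2, 1, 1, 1, [0, 0, 0, 0, 1], [0, 0, 0, 0, 0, 0, 0, 0, 0, 1], []⟩,
   ⟨[0, 0, 0, 2, 0, 0, 0, 0, 2, 2], 0, 1, 3, 8, 1, 0, [0, 0, 0, 1], [0, 0, 0, 0, 0, 0, 0, 0, 0, 1], [0, 0, 0, 0, 0, 0, 0, 0, 1]⟩,
   ⟨[0, 0, 0, 2, 0, 0, 0, 0, 3, 0], 0, 9, 2, 1, 1, 1, [0, 0, 0, 0, 0, 0, 0, 0, 1], [0, 0, 0, 1], []⟩,
   ⟨[0, 0, 0, 2, 0, 0, 0, 1, 1, 1], 0, 1, 3, 8, 1, 0, [0, 0, 0, 1], [0, 0, 0, 0, 0, 0, 0, 1, 0, 1], [0, 0, 0, 0, 0, 0, 0, 1, 1]⟩,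
   ⟨[0, 0, 0, 2, 0, 0, 1, 0, 0, 2], 0, 1, 3, 8, 1, 0, [0, 0, 0, 1], [0, 0, 0, 0, 0, 0, 0, 0, 0, 1], [0, 0, 0, 0, 0, 0, 2]⟩,
   ⟨[0, 0, 3, 0, 0, 0, 0, 2, 0, 0], 0, 1, 2, 1, 1, 1, [0, 0, 1], [0, 0, 0, 0, 0, 0, 0, 1], []⟩,
   ⟨[0, 1, 0, 0, 1, 0, 0, 1, 0, 2], 0, 1, 4, 9, 1, 0, [0, 1, 0, 0, 1], [0, 1, 0, 0, 0, 0, 0, 1], [0, 0, 0, 0, 0, 0, 0, 0, 0, 1]⟩,
   ⟨[0, 1, 1, 1, 0, 0, 0, 2, 0, 0], 0, 1, 1, 7, 1, 0, [0, 1, 0, 1], [0, 0, 1, 1], [0, 0, 0, 0, 0, 0, 0, 1]⟩,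
   ⟨[0, 2, 0, 0, 0, 0, 3, 0, 0, 0], 0, 7, 2, 1, 1, 1, [0, 0, 0, 0, 0, 0, 1], [0, 1], []⟩,
   ⟨[0, 2, 0, 0, 1, 0, 0, 2, 0, 0], 0, 1, 1, 7, 1, 0, [0, 1], [0, 0, 0, 0, 2], [0, 0, 0, 0, 0, 0, 0, 1]⟩,
   ⟨[0, 2, 0, 1, 0, 0, 1, 0, 0, 1], 0, 1, 1, 6, 1, 0, [0, 1], [0, 0, 0, 1, 0, 0, 0, 0, 0, 1], [0, 0, 0, 0, 0, 0, 1, 0, 0, 1]⟩,
   ⟨[0, 2, 0, 2, 0, 0, 2, 0, 0, 0], 0, 1, 1, 6, 1, 0, [0, 1], [0, 0, 0, 1], [0, 0, 0, 0, 0, 0, 1]⟩,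
   ⟨[0, 2, 1, 2, 0, 0, 0, 0, 0, 0], 0, 1, 1, 6, 1, 0, [0, 1], [0, 0, 0, 1], [0, 0, 2]⟩,
   ⟨[0, 2, 2, 0, 0, 0, 0, 2, 0, 0], 0, 1, 1, 7, 1, 0, [0, 1], [0, 0, 1], [0, 0, 0, 0, 0, 0, 0, 1]⟩]

theorem nat_of {n : ℕ} {D : ℕ → ℕ} (h : NatAll n D) : Nat43 n D := fun k hk _ => h k hk

theorem track2 : StmtTrack 2 := by
  intro L hL hd hc
  obtain ⟨c, hc, hcL⟩ := cls2 hL hd (nat_of hc)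
  rw [← hcL] at hd ⊢
  have h0 : ∀ c ∈ cs2, c.kind = 0 := by decide +kernel
  exact cert_two (cs2_ok c hc) (h0 c hc) hd

theorem track3 : StmtTrack 3 := by
  intro L hL hd hc
  have h0 : ∀ c ∈ cs3, c.kind = 2 → ∃ c' ∈ ([] : List CertT), c'.L = c.L ∧ c'.ok 3 := by
    decide +kernel
  exact track_of (by norm_num) cs3_ok h0 (cls3 hL hd (nat_of hc)) hd

theorem track4 : StmtTrack 4 := by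
  intro L hL hd hc
  have h0 : ∀ c ∈ cs4, c.kind = 2 → ∃ c' ∈ ([] : List CertT), c'.L = c.L ∧ c'.ok 4 := by
    decide +kernel
  exact track_of (by norm_num) cs4_ok h0 (cls4 hL hd (nat_of hc)) hd

theorem track5 : StmtTrack 5 := by
  intro L hL hd hc
  have h0 : ∀ c ∈ cs5, c.kind = 2 → ∃ c' ∈ ([] : List CertT), c'.L = c.L ∧ c'.ok 5 := by
    decide +kernel
  exact track_of (by norm_num) cs5_ok h0 (cls5 hL hd (nat_of hc)) hd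

theorem track6 : StmtTrack 6 := by
  intro L hL hd hc
  have h0 : ∀ c ∈ cs6, c.kind = 2 → ∃ c' ∈ ([] : List CertT), c'.L = c.L ∧ c'.ok 6 := by
    decide +kernel
  exact track_of (by norm_num) cs6_ok h0 (cls6 hL hd (nat_of hc)) hd

theorem track7 : StmtTrack 7 := by
  intro L hL hd hc
  have h0 : ∀ c ∈ cs7, c.kind = 2 → ∃ c' ∈ ts7, c'.L = c.L ∧ c'.ok 7 := by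
    decide +kernel
  exact track_of (by norm_num) cs7_ok h0 (cls7 hL hd (nat_of hc)) hd

theorem track10 : StmtTrack 10 := by
  intro L hL hd hc
  have h0 : ∀ c ∈ cs10, c.kind = 2 → ∃ c' ∈ ts10, c'.L = c.L ∧ c'.ok 10 := by
    decide +kernel
  exact track_of (by norm_num) cs10_ok h0 (cls10 hL hd (nat_of hc)) hd

end Pool.Agent.Helper43.HH
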