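import Pool.Agent.Helper43.HH.Free

/-! Project HH (joins), block TRK3: the branch curves with at most three components, of degree at
most four, or of degree five with at most one line. -/

set_option autoImplicit false

namespace Pool.Agent.Helper43.HH

open IntermediateField MvPolynomial Pool.Agent.Helper75.QC Pool.Agent.Helper75.WC
  Pool.Agent.Helper48.HH

/-- **Block TRK3.** -/
def StmtTrack3 : Prop :=
  ∀ (n r : ℕ) (d e : Fin r → ℕ), 2 < n → r ≤ 3 →
    (∑ i, d i ≤ 4 ∨ ∑ i, d i = 5 ∧ (Finset.univ.filter fun i => d i = 1).card ≤ 1) →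
    n ∣ ∑ i, d i * e i →
    ∃ α β t : ℕ, t.Coprime n ∧ (α.gcd β).Coprime n ∧ ¬ n ∣ α ∧ ¬ n ∣ β ∧ ¬ n ∣ α + β ∧
      ∀ {Ω R M : Type} [Field Ω] [IsAlgClosed Ω] [Field R] [Field M] [Algebra Ω R] [Algebra Ω M]
        [Algebra R M] [IsScalarTower Ω R M] [FiniteDimensional R M] [IsGalois R M],
        Module.finrank R M = n → ∀ (x y : R) (w : M) (f : Fin r → MvPolynomial (Fin 2) Ω),
          adjoin Ω {x, y} = ⊤ → adjoin R {w} = ⊤ → (∀ i, (f i).totalDegree ≤ d i) →
          (∀ i, aeval ![x, y] (f i) ≠ 0) →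
          w ^ n = algebraMap R M (∏ i, aeval ![x, y] (f i) ^ e i) →
          ∀ (σ : M →ₐ[R] M) (ζ : Ω), σ w = algebraMap Ω M ζ * w →
            Uniruled Ω M 2 ∨ RowP Ω M (σ.restrictScalars Ω) n α β (ζ ^ t)

/-- **The types without a condition on `n`.** -/
theorem trackD_free {n : ℕ} (hn : 2 < n) {D : ℕ → ℕ} (hD0 : D 0 = 0)
    (hsum : n ∣ ∑ e ∈ Finset.range n, e * D e) (h5 : ∑ e ∈ Finset.range n, D e ≤ 5)
    (hc : ∑ e ∈ Finset.range n, D e ≤ 4 ∧ ((Finset.range n).filter fun e => D e ≠ 0).card ≤ 3 ∨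
      ((Finset.range n).filter fun e => D e = 1).card ≤ 1) : TrackD n D := by
  classical
  obtain ⟨K, hK⟩ : ∃ K, K = (Finset.range n).filter fun e => D e ≠ 0 := ⟨_, rfl⟩
  have hKn : ∀ e, e < n → e ∉ K → D e = 0 := by
    intro e he hne
    by_contra h
    exact hne (by rw [hK]; exact Finset.mem_filter.2 ⟨Finset.mem_range.2 he, h⟩)
  have hKpos : ∀ e ∈ K, e < n ∧ 0 < D e := by
    intro e he
    rw [hK, Finset.mem_filter, Finset.mem_range] at he
    exact ⟨he.1, Nat.pos_of_ne_zero he.2⟩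
  have hK0 : ∀ e ∈ K, 0 < e := by
    intro e he
    rcases Nat.eq_zero_or_pos e with h | h
    · have h1 := (hKpos e he).2
      rw [h, hD0] at h1
      omega
    · exact h
  have hKs : ∑ e ∈ Finset.range n, D e = ∑ e ∈ K, D e := by
    rw [hK, Finset.sum_filter_ne_zero]
  -- the number of residues is at most three
  have hK3 : K.card ≤ 3 := by
    rcases hc with hc | hc
    · rw [hK]
      exact hc.2
    · by_contra h
      have h1 : ∑ e ∈ K, (if D e = 1 then 1 else 2) ≤ ∑ e ∈ K, D e := by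
        refine Finset.sum_le_sum fun e he => ?_
        have := (hKpos e he).2
        split_ifs <;> omega
      have h2 : ∑ e ∈ K, (if D e = 1 then 1 else 2) + (K.filter fun e => D e = 1).card =
          2 * K.card := by
        rw [Finset.card_filter, ← Finset.sum_add_distrib, Finset.card_eq_sum_ones,
          Finset.mul_sum]
        refine Finset.sum_congr rfl fun e _ => ?_
        split_ifs <;> rfl
      have h3 : (K.filter fun e => D e = 1).card ≤ 1 := by
        refine (Finset.card_le_card ?_).trans hc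
        intro e he
        rw [Finset.mem_filter] at he ⊢
        exact ⟨Finset.mem_range.2 (hKpos e he.1).1, he.2⟩
      omega
  have hlines : ∀ a b c : ℕ, a ∈ K → b ∈ K → c ∈ K → a ≠ b → a ≠ c → b ≠ c → D a = 1 → D b = 1 →
      ∑ e ∈ Finset.range n, D e ≤ 4 := by
    intro a b c ha hb hcc hab hac hbc h1 h2
    rcases hc with hc | hc
    · exact hc.1
    · exfalso
      have h3 : ({a, b} : Finset ℕ) ⊆ (Finset.range n).filter fun e => D e = 1 := by
        intro e he
        rw [Finset.mem_insert, Finset.mem_singleton] at he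
        rcases he with rfl | rfl
        · exact Finset.mem_filter.2 ⟨Finset.mem_range.2 (hKpos _ ha).1, h1⟩
        · exact Finset.mem_filter.2 ⟨Finset.mem_range.2 (hKpos _ hb).1, h2⟩
      have h4 := Finset.card_le_card h3
      rw [Finset.card_pair hab] at h4
      omega
  rw [hKs] at h5 hlines
  have h6 : K.card = 0 ∨ K.card = 1 ∨ K.card = 2 ∨ K.card = 3 := by omega
  rcases h6 with h6 | h6 | h6 | h6
  · -- no component
    rw [Finset.card_eq_zero] at h6
    have h7 : ∀ e < n, D e = 0 := fun e he => hKn e he (by rw [h6]; exact Finset.notMem_empty _)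
    exact trackD_four hn (k1 := 0) (by omega) (fun e he _ => h7 e he) (by rw [hD0]; omega)
  · obtain ⟨k1, rfl⟩ := Finset.card_eq_one.1 h6
    have hk1 := hKpos k1 (Finset.mem_singleton_self _)
    have h0 : ∀ e < n, e ≠ k1 → D e = 0 := fun e he hne =>
      hKn e he (by rwa [Finset.mem_singleton])
    rw [Finset.sum_singleton] at h5
    rcases Nat.lt_or_ge 4 (D k1) with h7 | h7
    · exact trackD_five hn hk1.1 h0 (by omega) hsum
    · exact trackD_four hn hk1.1 h0 h7
  · obtain ⟨k1, k2, h12, rfl⟩ := Finset.card_eq_two.1 h6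
    have hk1 := hKpos k1 (by simp)
    have hk2 := hKpos k2 (by simp)
    have hp1 := hK0 k1 (by simp)
    have hp2 := hK0 k2 (by simp)
    have h0 : ∀ e < n, e ≠ k1 → e ≠ k2 → D e = 0 := fun e he hne hne' =>
      hKn e he (by rw [Finset.mem_insert, Finset.mem_singleton]; tauto)
    rw [Finset.sum_pair h12] at h5
    -- the case `D k2 ≤ D k1`
    have key : ∀ k1 k2 : ℕ, k1 ≠ k2 → k1 < n → k2 < n → 0 < k1 → 0 < k2 → 0 < D k2 → D k2 ≤ D k1 →
        D k1 + D k2 ≤ 5 → (∀ e < n, e ≠ k1 → e ≠ k2 → D e = 0) → TrackD n D := by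
      intro k1 k2 h12 hk1 hk2 hp1 hp2 hp hle h5 h0
      rcases Nat.lt_or_ge 2 (D k1) with h7 | h7
      · rcases Nat.lt_or_ge 1 (D k2) with h8 | h8
        · exact trackD_threeTwo hn h12 hk1 hk2 hD0 h0 (by omega) (by omega) hsum
        · refine trackD_move hk2 (by omega) hsum ?_
          refine trackD_four hn hk1 (fun e he hne => ?_) ?_
          · by_cases h9 : e = k2
            · rw [h9, Function.update_self]
            · rw [Function.update_of_ne h9, h0 e he hne h9]
          · rw [Function.update_of_ne h12]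
            omega
      · exact trackD_two hn h12 hk1 hk2 hp1 hp2 h0 h7 (by omega)
    rcases Nat.le_total (D k2) (D k1) with h7 | h7
    · exact key k1 k2 h12 hk1.1 hk2.1 hp1 hp2 hk2.2 h7 h5 h0
    · exact key k2 k1 (Ne.symm h12) hk2.1 hk1.1 hp2 hp1 hk1.2 h7 (by omega)
        (fun e he h1 h2 => h0 e he h2 h1)
  · obtain ⟨k1, k2, k3, h12, h13, h23, rfl⟩ := Finset.card_eq_three.1 h6
    have hk1 := hKpos k1 (by simp)
    have hk2 := hKpos k2 (by simp)
    have hk3 := hKpos k3 (by simp)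
    have hp1 := hK0 k1 (by simp)
    have hp2 := hK0 k2 (by simp)
    have hp3 := hK0 k3 (by simp)
    have h0 : ∀ e < n, e ≠ k1 → e ≠ k2 → e ≠ k3 → D e = 0 := fun e he hne hne' hne'' =>
      hKn e he (by rw [Finset.mem_insert, Finset.mem_insert, Finset.mem_singleton]; tauto)
    have hs : ∑ e ∈ ({k1, k2, k3} : Finset ℕ), D e = D k1 + D k2 + D k3 := by
      rw [Finset.sum_insert (by simp [h12, h13]), Finset.sum_pair h23]
      ring
    rw [hs] at h5 hlines
    have l12 := hlines k1 k2 k3 (by simp) (by simp) (by simp) h12 h13 h23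
    have l13 := hlines k1 k3 k2 (by simp) (by simp) (by simp) h13 h12 (Ne.symm h23)
    have l23 := hlines k2 k3 k1 (by simp) (by simp) (by simp) h23 (Ne.symm h12) (Ne.symm h13)
    -- the line `k3` is moved
    have key : ∀ k1 k2 k3 : ℕ, k1 ≠ k2 → k1 ≠ k3 → k2 ≠ k3 → k1 < n → k2 < n → k3 < n → 0 < k1 →
        0 < k2 → D k3 = 1 → D k1 ≤ 2 → D k2 ≤ 2 →
        (∀ e < n, e ≠ k1 → e ≠ k2 → e ≠ k3 → D e = 0) → TrackD n D := by
      intro k1 k2 k3 h12 h13 h23 hk1 hk2 hk3 hp1 hp2 hd3 hd1 hd2 h0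
      refine trackD_move hk3 hd3 hsum ?_
      refine trackD_two hn h12 hk1 hk2 hp1 hp2 (fun e he h1 h2 => ?_) ?_ ?_
      · by_cases h9 : e = k3
        · rw [h9, Function.update_self]
        · rw [Function.update_of_ne h9, h0 e he h1 h2 h9]
      · rw [Function.update_of_ne h13]
        exact hd1
      · rw [Function.update_of_ne h23]
        exact hd2
    have h7 : (D k3 = 1 ∧ D k1 ≤ 2 ∧ D k2 ≤ 2) ∨ (D k2 = 1 ∧ D k1 ≤ 2 ∧ D k3 ≤ 2) ∨
        (D k1 = 1 ∧ D k2 ≤ 2 ∧ D k3 ≤ 2) := by omega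
    rcases h7 with h7 | h7 | h7
    · exact key k1 k2 k3 h12 h13 h23 hk1.1 hk2.1 hk3.1 hp1 hp2 h7.1 h7.2.1 h7.2.2 h0
    · exact key k1 k3 k2 h13 h12 (Ne.symm h23) hk1.1 hk3.1 hk2.1 hp1 hp3 h7.1 h7.2.1 h7.2.2
        (fun e he h1 h2 h3 => h0 e he h1 h3 h2)
    · exact key k2 k3 k1 h23 (Ne.symm h12) (Ne.symm h13) hk2.1 hk3.1 hk1.1 hp2 hp3 h7.1 h7.2.1
        h7.2.2 (fun e he h1 h2 h3 => h0 e he h3 h1 h2)

/-- **The representation of a cyclic cover.** -/
theorem rep_of_curve43 {Ω R M : Type} [Field Ω] [Field R] [Field M] [Algebra Ω R] [Algebra Ω M]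
    [Algebra R M] {n : ℕ} (hn : 0 < n) {x y : R} {w : M} (hR : adjoin Ω {x, y} = ⊤)
    (hw : adjoin R {w} = ⊤) {r : ℕ} (d e : Fin r → ℕ) (f : Fin r → MvPolynomial (Fin 2) Ω)
    (hd : ∀ i, (f i).totalDegree ≤ d i) (hne : ∀ i, aeval ![x, y] (f i) ≠ 0)
    (heq : w ^ n = algebraMap R M (∏ i, aeval ![x, y] (f i) ^ e i)) :
    ∃ H : Rep Ω R M n (ent (0 :: typ n d e)), Rel R 1 w H.w := by
  classical
  obtain ⟨z, hz⟩ : ∃ z : R, z = ∏ i, aeval ![x, y] (f i) ^ (e i / n) := ⟨_, rfl⟩
  have hz0 : z ≠ 0 := by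
    rw [hz, Finset.prod_ne_zero_iff]
    exact fun i _ => pow_ne_zero _ (hne i)
  have hzM : algebraMap R M z ≠ 0 := by simpa using hz0
  let P : ℕ → MvPolynomial (Fin 2) Ω := fun k =>
    if k = 0 ∨ n ≤ k then 1 else ∏ i with e i % n = k, f i
  refine ⟨⟨x, y, w / algebraMap R M z, P, hR, ?_, fun k => ?_, fun k => ?_, ?_⟩, z⁻¹,
    inv_ne_zero hz0, ?_⟩
  · rw [eq_top_iff, ← hw, adjoin_le_iff]
    intro w' hw'
    rw [Set.mem_singleton_iff] at hw'
    rw [hw']
    have h2 : w / algebraMap R M z ∈ adjoin R {w / algebraMap R M z} := subset_adjoin _ _ rfl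
    have h3 := mul_mem h2 ((adjoin R {w / algebraMap R M z}).algebraMap_mem z)
    rwa [div_mul_cancel₀ _ hzM] at h3
  · rw [ent_typ]
    change (if k = 0 ∨ n ≤ k then 1 else ∏ i with e i % n = k, f i).totalDegree ≤ _
    split_ifs with h
    · simp
    · exact (totalDegree_finsetProd _ _).trans (Finset.sum_le_sum fun i _ => hd i)
  · change aeval ![x, y] (if k = 0 ∨ n ≤ k then 1 else ∏ i with e i % n = k, f i) ≠ 0
    split_ifs with h
    · simp
    · rw [map_prod, Finset.prod_ne_zero_iff]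
      exact fun i _ => hne i
  · rw [div_pow, heq, ← map_pow, ← map_div₀]
    congr 1
    rw [div_eq_iff (pow_ne_zero _ hz0), hz, ← Finset.prod_pow]
    have h1 : ∏ k ∈ Finset.range n, aeval ![x, y] (P k) ^ k =
        ∏ i, aeval ![x, y] (f i) ^ (e i % n) := by
      have h2 : ∀ k ∈ Finset.range n, aeval ![x, y] (P k) ^ k =
          ∏ i with e i % n = k, aeval ![x, y] (f i) ^ (e i % n) := by
        intro k hk
        rw [Finset.mem_range] at hk
        change aeval ![x, y] (if k = 0 ∨ n ≤ k then 1 else ∏ i with e i % n = k, f i) ^ k = _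
        by_cases h : k = 0
        · rw [if_pos (Or.inl h), h, pow_zero, Finset.prod_eq_one]
          intro i hi
          rw [(Finset.mem_filter.1 hi).2, pow_zero]
        · rw [if_neg (by omega), map_prod, ← Finset.prod_pow]
          refine Finset.prod_congr rfl fun i hi => ?_
          rw [(Finset.mem_filter.1 hi).2]
      rw [Finset.prod_congr rfl h2]
      exact Finset.prod_fiberwise_of_maps_to
        (fun i _ => Finset.mem_range.2 (Nat.mod_lt _ hn)) _
    rw [h1, ← Finset.prod_mul_distrib]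
    refine Finset.prod_congr rfl fun i _ => ?_
    rw [← pow_mul, ← pow_add]
    congr 1
    rw [mul_comm]
    exact (Nat.mod_add_div _ _).symm
  · rw [pow_one, map_inv₀]
    exact div_eq_mul_inv _ _

/-- **The curves with at most three components.** -/
theorem track3c : StmtTrack3 := by
  intro n r d e hn hr hc hdvd
  have hn0 : 0 < n := by omega
  have h5 : ∑ i, d i ≤ 5 := by
    rcases hc with hc | hc
    · omega
    · omega
  obtain ⟨α, β, t, h1, h2, h3, h4, h6, h7⟩ : TrackD n (ent (0 :: typ n d e)) := by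
    refine trackD_free hn (by simp [ent]) (typ_dvd hn0 d e hdvd)
      ((typ_range_sum d e hn0).trans h5) ?_
    rcases hc with hc | hc
    · refine Or.inl ⟨(typ_range_sum d e hn0).trans hc, (typ_comps d e).trans ?_⟩
      refine (Finset.card_le_univ _).trans ?_
      rwa [Fintype.card_fin]
    · exact Or.inr ((typ_lines d e).trans hc.2)
  refine ⟨α, β, t, h1, h2, h3, h4, h6,
    fun {Ω R M} _ _ _ _ _ _ _ _ _ _ hfin x y w f hR hw hd hne heq σ ζ hσ => ?_⟩
  obtain ⟨H, h8⟩ := rep_of_curve43 hn0 hR hw d e f hd hne heq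
  refine h7 hfin H σ ζ ?_
  have h9 := h8.act hσ
  rwa [pow_one] at h9

end Pool.Agent.Helper43.HH
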